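import Pool.Agent.Y506.RG.Stm

/-!
# RG-POTR: potentials `∑ V_i((L x)_i) + c`
-/

set_option autoImplicit false

namespace Pool.Agent.Y287.RG

open MeasureTheory Set Filter Topology
open scoped ENNReal InnerProductSpace
open Pool.Agent.W695.KH (Eu Pot)
open Pool.Agent.Y506.RG

variable {ι : Type} [Fintype ι] {n : ℕ}

/-- the adjoint -/
noncomputable def adj (L : Eu (Fin n) →ₗᵢ[ℝ] Eu ι) : Eu ι →L[ℝ] Eu (Fin n) :=
  ContinuousLinearMap.adjoint L.toContinuousLinearMap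

theorem inner_adj (L : Eu (Fin n) →ₗᵢ[ℝ] Eu ι) (w : Eu ι) (x : Eu (Fin n)) :
    ⟪adj L w, x⟫_ℝ = ⟪w, L x⟫_ℝ := ContinuousLinearMap.adjoint_inner_left _ _ _

theorem norm_adj (L : Eu (Fin n) →ₗᵢ[ℝ] Eu ι) (w : Eu ι) : ‖adj L w‖ ≤ ‖w‖ := by
  have h1 : ‖adj L w‖ ^ 2 ≤ ‖w‖ * ‖adj L w‖ := by
    rw [← real_inner_self_eq_norm_sq, inner_adj]
    calc ⟪w, L (adj L w)⟫_ℝ ≤ ‖w‖ * ‖L (adj L w)‖ := real_inner_le_norm _ _
      _ = ‖w‖ * ‖adj L w‖ := by rw [L.norm_map]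
  by_contra h
  rw [not_le] at h
  have h2 : 0 < ‖adj L w‖ := lt_of_le_of_lt (norm_nonneg _) h
  nlinarith

/-- the coordinatewise map -/
noncomputable def Fm (V' : ι → ℝ → ℝ) (y : Eu ι) : Eu ι := WithLp.toLp 2 fun i => V' i (y i)

theorem Fm_apply (V' : ι → ℝ → ℝ) (y : Eu ι) (i : ι) : Fm V' y i = V' i (y i) := rfl

theorem mono_sq {f : ℝ → ℝ} {A : ℝ} (hf : Monotone f) (hA : ∀ s t, |f s - f t| ≤ A * |s - t|)
    (s t : ℝ) : (f s - f t) ^ 2 ≤ A * ((f s - f t) * (s - t)) := by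
  have h1 : 0 ≤ (f s - f t) * (s - t) := by
    rcases le_total t s with h | h
    · exact mul_nonneg (sub_nonneg.2 (hf h)) (sub_nonneg.2 h)
    · exact mul_nonneg_of_nonpos_of_nonpos (sub_nonpos.2 (hf h)) (sub_nonpos.2 h)
  have h2 : (f s - f t) * (s - t) = |f s - f t| * |s - t| := by
    rw [← abs_mul, abs_of_nonneg h1]
  rw [h2, ← sq_abs, sq]
  calc |f s - f t| * |f s - f t| ≤ |f s - f t| * (A * |s - t|) :=
        mul_le_mul_of_nonneg_left (hA s t) (abs_nonneg _)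
    _ = A * (|f s - f t| * |s - t|) := by ring

theorem inner_eu (u v : Eu ι) : ⟪u, v⟫_ℝ = ∑ i, u i * v i := by
  rw [PiLp.inner_apply]
  refine Finset.sum_congr rfl fun i _ => ?_
  simp [mul_comm]

theorem Fm_sq {V' : ι → ℝ → ℝ} {A : ℝ} (hm : ∀ i, Monotone (V' i))
    (hA : ∀ i s t, |V' i s - V' i t| ≤ A * |s - t|) (y z : Eu ι) :
    ‖Fm V' y - Fm V' z‖ ^ 2 ≤ A * ⟪Fm V' y - Fm V' z, y - z⟫_ℝ := by
  rw [← real_inner_self_eq_norm_sq, inner_eu, inner_eu, Finset.mul_sum]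
  refine Finset.sum_le_sum fun i _ => ?_
  have h := mono_sq (hm i) (hA i) (y i) (z i)
  rw [sq] at h
  exact h

theorem potr : S_POTR := by
  intro ι _ n L V V' A c hA hV hm hl hint
  obtain ⟨b, hb⟩ : ∃ b : Eu (Fin n) → Eu (Fin n), b = fun x => adj L (Fm V' (L x)) := ⟨_, rfl⟩
  have hbx : ∀ x, b x = adj L (Fm V' (L x)) := fun x => by rw [hb]
  have hin : ∀ x y, 0 ≤ ⟪Fm V' (L x) - Fm V' (L y), L x - L y⟫_ℝ := by
    intro x y
    have h := Fm_sq hm hl (L x) (L y)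
    by_contra hc
    rw [not_le] at hc
    have h2 : A * ⟪Fm V' (L x) - Fm V' (L y), L x - L y⟫_ℝ < 0 := mul_neg_of_pos_of_neg hA hc
    have h3 := sq_nonneg ‖Fm V' (L x) - Fm V' (L y)‖
    linarith
  have hsub : ∀ x y, b x - b y = adj L (Fm V' (L x) - Fm V' (L y)) := fun x y => by
    rw [hbx, hbx, map_sub]
  have hlip : ∀ x y, ‖b x - b y‖ ≤ A * ‖x - y‖ := by
    intro x y
    rw [hsub]
    refine (norm_adj L _).trans ?_
    have h := Fm_sq hm hl (L x) (L y)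
    have h2 := real_inner_le_norm (Fm V' (L x) - Fm V' (L y)) (L x - L y)
    have h3 : ‖L x - L y‖ = ‖x - y‖ := by rw [← map_sub, L.norm_map]
    rw [h3] at h2
    by_contra hc
    rw [not_le] at hc
    have h4 : 0 < ‖Fm V' (L x) - Fm V' (L y)‖ := lt_of_le_of_lt (by positivity) hc
    have h5 : A * ⟪Fm V' (L x) - Fm V' (L y), L x - L y⟫_ℝ ≤
        A * (‖Fm V' (L x) - Fm V' (L y)‖ * ‖x - y‖) := mul_le_mul_of_nonneg_left h2 hA.le
    nlinarith
  have hder : ∀ x, HasFDerivAt (fun x => ∑ i, V i (L x i) + c) (innerSL ℝ (b x)) x := by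
    intro x
    have h1 : ∀ i, HasFDerivAt (fun x => V i (L x i))
        ((V' i (L x i)) • ((EuclideanSpace.proj i).comp L.toContinuousLinearMap)) x := by
      intro i
      have h2 : HasFDerivAt (fun x => L x i)
          ((EuclideanSpace.proj i).comp L.toContinuousLinearMap) x :=
        ((EuclideanSpace.proj i).comp L.toContinuousLinearMap :
          Eu (Fin n) →L[ℝ] ℝ).hasFDerivAt
      exact (hV i (L x i)).comp_hasFDerivAt x h2
    have h3 := (HasFDerivAt.fun_sum (u := Finset.univ) fun i _ => h1 i).add_const c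
    refine h3.congr_fderiv ?_
    ext v
    rw [innerSL_apply_apply, hbx, inner_adj, inner_eu, ContinuousLinearMap.sum_apply]
    rfl
  refine ⟨b, hA, hder, hlip, ?_, ?_⟩
  · intro h h0 hh x y
    have e : (x - h • b x) - (y - h • b y) = (x - y) - h • (b x - b y) := by
      rw [smul_sub]
      abel
    rw [e, hsub]
    obtain ⟨δ, hδ⟩ : ∃ δ, δ = Fm V' (L x) - Fm V' (L y) := ⟨_, rfl⟩
    have k1 := Fm_sq hm hl (L x) (L y)
    have k2 := hin x y
    rw [← hδ] at k1 k2 ⊢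
    have k3 : ⟪x - y, adj L δ⟫_ℝ = ⟪δ, L x - L y⟫_ℝ := by
      rw [real_inner_comm, inner_adj, map_sub]
    have k4 : ‖adj L δ‖ ^ 2 ≤ ‖δ‖ ^ 2 := pow_le_pow_left₀ (norm_nonneg _) (norm_adj L δ) 2
    have k5 : ‖(x - y) - h • adj L δ‖ ^ 2 =
        ‖x - y‖ ^ 2 - 2 * (h * ⟪δ, L x - L y⟫_ℝ) + h ^ 2 * ‖adj L δ‖ ^ 2 := by
      rw [norm_sub_sq_real, real_inner_smul_right, k3, norm_smul, Real.norm_eq_abs, mul_pow,
        sq_abs]
    have k6 : ‖(x - y) - h • adj L δ‖ ^ 2 ≤ ‖x - y‖ ^ 2 := by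
      rw [k5]
      have k7 : h ^ 2 * ‖adj L δ‖ ^ 2 ≤ h ^ 2 * (A * ⟪δ, L x - L y⟫_ℝ) :=
        mul_le_mul_of_nonneg_left (k4.trans k1) (sq_nonneg _)
      have k8 : h ^ 2 * (A * ⟪δ, L x - L y⟫_ℝ) ≤ h * ⟪δ, L x - L y⟫_ℝ := by
        have : h ^ 2 * (A * ⟪δ, L x - L y⟫_ℝ) = (h * A) * (h * ⟪δ, L x - L y⟫_ℝ) := by ring
        rw [this]
        exact mul_le_of_le_one_left (mul_nonneg h0 k2) hh
      have k9 : 0 ≤ h * ⟪δ, L x - L y⟫_ℝ := mul_nonneg h0 k2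
      linarith
    exact le_of_sq_le_sq k6 (norm_nonneg _)
  · have hbc : Continuous b := by
      have : LipschitzWith ⟨A, hA.le⟩ b := by
        refine LipschitzWith.of_dist_le_mul fun x y => ?_
        rw [dist_eq_norm, dist_eq_norm]
        exact hlip x y
      exact this.continuous
    have hUc : Continuous fun x => ∑ i, V i (L x i) + c :=
      continuous_iff_continuousAt.2 fun x => (hder x).continuousAt
    have h0 : ∀ x, ‖b x‖ ≤ ‖b 0‖ + A * ‖x‖ := by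
      intro x
      have h1 := hlip x 0
      rw [sub_zero] at h1
      have h2 : ‖b x‖ ≤ ‖b 0‖ + ‖b x - b 0‖ := by
        have := norm_add_le (b 0) (b x - b 0)
        rwa [add_sub_cancel] at this
      linarith
    refine Integrable.mono' (hint.const_mul (1 + 2 * ‖b 0‖ ^ 2 + 2 * A ^ 2)) ?_ ?_
    · exact (((continuous_const.add (hbc.norm.pow 2)).mul
        (Real.continuous_exp.comp hUc.neg))).aestronglyMeasurable
    · refine Eventually.of_forall fun x => ?_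
      have hE := Real.exp_pos (-(∑ i, V i (L x i) + c))
      rw [Real.norm_eq_abs, abs_of_nonneg (by positivity), ← mul_assoc]
      refine mul_le_mul_of_nonneg_right ?_ hE.le
      have h1 := h0 x
      have h2 : ‖b x‖ ^ 2 ≤ (‖b 0‖ + A * ‖x‖) ^ 2 := pow_le_pow_left₀ (norm_nonneg _) h1 2
      have h3 : (‖b 0‖ + A * ‖x‖) ^ 2 ≤ 2 * ‖b 0‖ ^ 2 + 2 * (A * ‖x‖) ^ 2 := by
        nlinarith [sq_nonneg (‖b 0‖ - A * ‖x‖)]
      have h4 : 0 ≤ ‖b 0‖ ^ 2 * ‖x‖ ^ 2 := by positivity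
      have h5 : 0 ≤ ‖x‖ ^ 2 := by positivity
      have h6 : 0 ≤ A ^ 2 := by positivity
      nlinarith

end Pool.Agent.Y287.RG
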